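import Pool.Agent.Helper49_ABB.Walk

/-!
# Claim M, local form (module MLOC, MP_d857f1_al, part C)

Two triangles at a tip share the letter `e`; their other letters are `e'` and `z e'`, where `z` moves
`e` and `e'`. The corners are of type P or Q. `h : tgt e → tgt e'` is the third side of the first
triangle, `k : tgt e → tgt (z e')` that of the second one, `f₀ : tgt e → a`, `f₀' : tgt e' → a` the
sides of a triangle on `h`. Then the two closed walks `[k, e⁻¹, h, f₀, y, x]` at `tgt e` and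
`[z⁻¹ k⁻¹, e'⁻¹, h⁻¹, f₀', y', x']` at `tgt e'` do not exist both.
-/

set_option autoImplicit false

namespace Pool.Agent.ABA.B.H24

open Knd Pool.Agent.ABA Pool.Agent.ABA.B Pool.Agent.ABA.B.TG Pool.Agent.ABA.B.H17
  Pool.Agent.ABA.B.H49

/-! ## general level -/

section general

variable {V E : Type} {S : TG V E}

/-- a closed walk of length six with the four obvious conditions is reduced -/
theorem crw_six (hsys : ∀ v, CRW S v → 6 ≤ v.length) {k a h f y x : E}
    (h1 : S.Cor k a) (h2 : S.Cor a h) (h3 : S.Cor h f) (h4 : S.Cor f y) (h5 : S.Cor y x)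
    (h6 : S.Cor x k) (n1 : k ≠ h) (n2 : a ≠ f) (n3 : y ≠ k) (n4 : x ≠ a) :
    CRW S [k, a, h, f, y, x] := by
  have n5 : h ≠ y := by
    rintro rfl
    rcases four hsys (cor_sym h1) (cor_sym h6) (cor_sym h5) (cor_sym h2) with h | h
    · exact n4 h.symm
    · exact n1 h
  have n6 : f ≠ x := by
    rintro rfl
    rcases four hsys (cor_sym h1) (cor_sym h6) (cor_sym h3) (cor_sym h2) with h | h
    · exact n4 h.symm
    · exact n1 h
  refine ⟨by simp, by simp [h1, h2, h3, h4, h5, h6], ?_⟩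
  apply (red_iff _).2
  intro i hi
  have hi' : i = 0 ∨ i = 1 ∨ i = 2 ∨ i = 3 ∨ i = 4 ∨ i = 5 := by simp at hi; omega
  rcases hi' with rfl | rfl | rfl | rfl | rfl | rfl
  · simpa using n1
  · simpa using n2
  · simpa using n5
  · simpa using n6
  · simpa using n3
  · simpa using n4

end general

/-! ## the kinds of closed reduced walks of length six -/

/-- kinds of a closed reduced walk of length six -/
def g6 (a b c d e f : Knd) : Bool :=
  (adj a b && adj b c && adj c d && adj d e && adj e f && adj f a) &&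
  (!(decide (a = c) && hex a b) && !(decide (b = d) && hex b c) && !(decide (c = e) && hex c d) &&
    !(decide (d = f) && hex d e) && !(decide (e = a) && hex e f) && !(decide (f = b) && hex f a)) &&
  (decide (122 ≤ wt a b + wt b c + wt c d + wt d e + wt e f + wt f a) ||
    isr hexs [a, b, c, d, e, f])

theorem g6_i : ∀ x ∈ all, ∀ y ∈ all, ∀ z ∈ all, g6 vm up vm x y z = true → x = um := by
  decide +kernel

theorem g6_ii : ∀ x ∈ all, ∀ y ∈ all, ∀ z ∈ all, g6 up vm up x y z = true → x = vp := by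
  decide +kernel

theorem g6_iii : ∀ x ∈ all, ∀ y ∈ all, ∀ z ∈ all, g6 vp cm vp x y z = true → x = cm ∨ x = up := by
  decide +kernel

theorem g6_iv : ∀ x ∈ all, ∀ y ∈ all, ∀ z ∈ all, g6 um cp um x y z = true → x = cp ∨ x = vm := by
  decide +kernel

section

variable {G : Type} [Group G] {A B : Subgroup G} {g : G}
variable {hg : ¬ IsABA A B g} {hgeo : Geo A B} {hι : Function.Injective (Pι A B g)}

theorem crw_g6 (hA : ∀ x ∈ A, ∀ y ∈ A, x * y = y * x) {a b c d e f : XE A B g}
    (h : CRW (XX hg hgeo hι) [a, b, c, d, e, f]) :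
    g6 (kndE a) (kndE b) (kndE c) (kndE d) (kndE e) (kndE f) = true := by
  obtain ⟨-, h1, h2⟩ := h
  obtain ⟨-, h3⟩ := link_X hg hgeo hι hA _ (by simp) h1 h2
  simp only [List.take_succ_cons, List.take_zero, List.cons_append, List.nil_append,
    List.isChain_cons_cons, List.isChain_singleton, and_true] at h1
  obtain ⟨c1, c2, c3, c4, c5, c6⟩ := h1
  have r := (red_iff _).1 h2
  have r1 : a ≠ c := by simpa using r 0 (by simp)
  have r2 : b ≠ d := by simpa using r 1 (by simp)
  have r3 : c ≠ e := by simpa using r 2 (by simp)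
  have r4 : d ≠ f := by simpa using r 3 (by simp)
  have r5 : e ≠ a := by simpa using r 4 (by simp)
  have r6 : f ≠ b := by simpa using r 5 (by simp)
  have nb : ∀ x y z : XE A B g, (XX hg hgeo hι).Cor x y → (XX hg hgeo hι).Cor y z → x ≠ z →
      (!(decide (kndE x = kndE z) && hex (kndE x) (kndE y))) = true := by
    intro x y z hxy hyz hne
    by_contra hcon
    simp only [Bool.not_eq_true', Bool.not_eq_false, Bool.and_eq_true, decide_eq_true_eq] at hcon
    exact hne (hex_back hxy hyz hcon.1 hcon.2)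
  have hw : (decide (122 ≤ wt (kndE a) (kndE b) + wt (kndE b) (kndE c) + wt (kndE c) (kndE d) +
      wt (kndE d) (kndE e) + wt (kndE e) (kndE f) + wt (kndE f) (kndE a)) ||
      isr hexs [kndE a, kndE b, kndE c, kndE d, kndE e, kndE f]) = true := by
    rw [Bool.or_eq_true, decide_eq_true_eq]
    rcases h3 with h3 | h3
    · left
      unfold cw at h3
      rw [ow_eq20] at h3
      simp only [List.take_succ_cons, List.take_zero, List.cons_append, List.nil_append,
        List.map_cons, List.map_nil, ow20] at h3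
      have h4 : ((122 : ℕ) : ℝ) ≤ ((wt (kndE a) (kndE b) + (wt (kndE b) (kndE c) +
        (wt (kndE c) (kndE d) + (wt (kndE d) (kndE e) + (wt (kndE e) (kndE f) +
        (wt (kndE f) (kndE a) + 0))))) : ℕ) : ℝ) := by
        push_cast at h3 ⊢
        linarith
      have h5 := Nat.cast_le.1 h4
      omega
    · right
      simpa using h3
  unfold g6
  rw [hw, nb _ _ _ c1 c2 r1, nb _ _ _ c2 c3 r2, nb _ _ _ c3 c4 r3, nb _ _ _ c4 c5 r4,
    nb _ _ _ c5 c6 r5, nb _ _ _ c6 c1 r6, cor_adj c1, cor_adj c2, cor_adj c3, cor_adj c4,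
    cor_adj c5, cor_adj c6]
  rfl

/-- kinds of triangles -/
def t3 (a b c : Knd) : Bool :=
  decide ((a, b, c) ∈ [(vp, up, wp), (wp, vp, um), (um, wp, vm), (vm, um, wm), (wm, vm, up),
    (up, wm, vp), (up, vp, wm), (vp, wp, up), (wp, um, vp), (um, vm, wp), (vm, wm, um),
    (wm, up, vm), (vm, up, cp), (up, vm, cm), (cp, um, vm), (um, cp, vp), (vp, cm, um),
    (cm, vp, up)])

theorem tri_t3 {e e' f : XE A B g} (h : XT e e' f) : t3 (kndE e) (kndE e') (kndE f) = true := by
  rcases h.elim' with ⟨m, q, rfl, rfl, rfl⟩ | ⟨m, q, rfl, rfl, rfl⟩ | ⟨q, rfl, rfl, rfl⟩ |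
    ⟨q, rfl, rfl, rfl⟩ | ⟨q, rfl, rfl, rfl⟩ | ⟨q, rfl, rfl, rfl⟩ | ⟨q, rfl, rfl, rfl⟩ |
    ⟨q, rfl, rfl, rfl⟩
  · cases m <;> rfl
  · cases m <;> rfl
  all_goals rfl

theorem t3_third : ∀ a ∈ all, ∀ b ∈ all, ∀ c ∈ all, ∀ d ∈ all, t3 a b c = true → t3 a b d = true →
    c = d := by decide +kernel

/-- type P or Q: the corner of `e` and `e'` -/
def PQ (a b : Knd) : Prop :=
  (a = um ∧ b = cp) ∨ (a = cp ∧ b = um) ∨ (a = vp ∧ b = cm) ∨ (a = cm ∧ b = vp)

theorem core (hA : ∀ x ∈ A, ∀ y ∈ A, x * y = y * x) {k a h f y x k' a' f' y' x' : XE A B g}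
    (hc : CRW (XX hg hgeo hι) [k, a, h, f, y, x])
    (hc' : CRW (XX hg hgeo hι) [k', a', xinv h, f', y', x'])
    (ht : XT h f (xinv f'))
    (hk : (kndE k = vm ∧ kndE a = up ∧ kndE h = vm ∧ kndE k' = vp ∧ kndE a' = cm) ∨
      (kndE k = up ∧ kndE a = vm ∧ kndE h = up ∧ kndE k' = um ∧ kndE a' = cp)) : False := by
  have h1 := crw_g6 hA hc
  have h2 := crw_g6 hA hc'
  have h3 := tri_t3 ht
  rw [kndE_xinv] at h2 h3
  rcases hk with ⟨k1, k2, k3, k4, k5⟩ | ⟨k1, k2, k3, k4, k5⟩
  · rw [k1, k2, k3] at h1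
    rw [k3, k4, k5] at h2
    have h4 := g6_i _ (mem_all _) _ (mem_all _) _ (mem_all _) h1
    have h5 := g6_iii _ (mem_all _) _ (mem_all _) _ (mem_all _) h2
    rw [k3, h4] at h3
    rcases h5 with h5 | h5 <;> rw [h5] at h3 <;> exact absurd h3 (by decide)
  · rw [k1, k2, k3] at h1
    rw [k3, k4, k5] at h2
    have h4 := g6_ii _ (mem_all _) _ (mem_all _) _ (mem_all _) h1
    have h5 := g6_iv _ (mem_all _) _ (mem_all _) _ (mem_all _) h2
    rw [k3, h4] at h3
    rcases h5 with h5 | h5 <;> rw [h5] at h3 <;> exact absurd h3 (by decide)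

theorem mem_all' (k : Knd) : k ∈ all := mem_all k

theorem PQ.tee {a b : Knd} (h : PQ a b) : tee a b = true := by
  rcases h with ⟨rfl, rfl⟩ | ⟨rfl, rfl⟩ | ⟨rfl, rfl⟩ | ⟨rfl, rfl⟩ <;> rfl

/-- the action on triangles and corners -/
theorem tri_act (z : PP A B g) {e e' f : XE A B g} (h : (XX hg hgeo hι).Tri e e' f) :
    (XX hg hgeo hι).Tri (actE z e) (actE z e') (actE z f) := XT_act z h

theorem cor_act (z : PP A B g) {e e' : XE A B g} (h : (XX hg hgeo hι).Cor e e') :
    (XX hg hgeo hι).Cor (actE z e) (actE z e') := by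
  obtain ⟨c, hc⟩ := h
  exact ⟨_, tri_act z hc⟩

theorem act_inj {z : PP A B g} {e e' : XE A B g} (h : actE z e = actE z e') : e = e' := by
  have h1 := congrArg (actE z⁻¹) h
  have h2 : ∀ e : XE A B g, actE z⁻¹ (actE z e) = e := by
    intro e
    have := inv_smul_smul z e
    rwa [smul_actE, smul_actE] at this
  rwa [h2, h2] at h1

theorem act_back (z : PP A B g) (e : XE A B g) : actE z⁻¹ (actE z e) = e := by
  have := inv_smul_smul z e
  rwa [smul_actE, smul_actE] at this

theorem act_back' (z : PP A B g) (e : XE A B g) : actE z (actE z⁻¹ e) = e := by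
  have := smul_inv_smul z e
  rwa [smul_actE, smul_actE] at this

/-- MLOC, core form -/
theorem mloc (hA : ∀ x ∈ A, ∀ y ∈ A, x * y = y * x) {z : PP A B g}
    {e e' h k f f' x y x' y' : XE A B g}
    (T1 : (XX hg hgeo hι).Tri e e' (xinv h)) (T2 : (XX hg hgeo hι).Tri e (actE z e') (xinv k))
    (T3 : (XX hg hgeo hι).Tri h f (xinv f')) (hPQ : PQ (kndE e) (kndE e'))
    (hz : actE z e ≠ e) (hz' : actE z e' ≠ e')
    (w1 : (XX hg hgeo hι).Cor k x) (w2 : (XX hg hgeo hι).Cor x y) (w3 : (XX hg hgeo hι).Cor y f)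
    (n1 : x ≠ xinv e) (n2 : y ≠ k) (n3 : f ≠ xinv e)
    (w1' : (XX hg hgeo hι).Cor (actE z⁻¹ (xinv k)) x') (w2' : (XX hg hgeo hι).Cor x' y')
    (w3' : (XX hg hgeo hι).Cor y' f')
    (n1' : x' ≠ xinv e') (n2' : y' ≠ actE z⁻¹ (xinv k)) (n3' : f' ≠ xinv e') : False := by
  set S := XX hg hgeo hι with hS
  have hsys := hsysX (hg := hg) (hgeo := hgeo) (hι := hι) hA
  have hinv : ∀ e : XE A B g, S.inv e = xinv e := fun _ => rfl
  have hii : ∀ e : XE A B g, xinv (xinv e) = e := fun e => S.inv_inv e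
  -- corners at the ends of the common letter
  have r1 : S.Tri (xinv e') (xinv h) (xinv e) := S.tri_rot T1
  have r1' : S.Tri (xinv e) h (xinv e') := by
    have h1 := S.tri_rot (S.tri_swap T1)
    rw [hinv, hinv, hinv, hii] at h1
    exact h1
  have r2 : S.Tri (xinv e) k (xinv (actE z e')) := by
    have h1 := S.tri_rot (S.tri_swap T2)
    rw [hinv, hinv, hinv, hii] at h1
    exact h1
  have r3 : S.Tri (xinv (actE z e')) (xinv k) (xinv e) := S.tri_rot T2
  have r3' : S.Tri (xinv e') (actE z⁻¹ (xinv k)) (actE z⁻¹ (xinv e)) := by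
    have h1 := tri_act z⁻¹ r3
    rw [← hS] at h1
    have h2 : actE z⁻¹ (xinv (actE z e')) = xinv e' := by
      rw [← xinv_act, act_back]
    rwa [h2] at h1
  have c1 : S.Cor k (xinv e) := cor_sym ⟨_, r2⟩
  have c2 : S.Cor (xinv e) h := ⟨_, r1'⟩
  have c3 : S.Cor h f := ⟨_, T3⟩
  have c1' : S.Cor (actE z⁻¹ (xinv k)) (xinv e') := cor_sym ⟨_, r3'⟩
  have c2' : S.Cor (xinv e') (xinv h) := ⟨_, r1⟩
  have T3' : S.Tri (xinv h) f' (xinv f) := by
    have h1 := S.tri_rot (S.tri_swap T3)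
    rw [hinv, hinv, hinv, hii] at h1
    exact h1
  have c3' : S.Cor (xinv h) f' := ⟨_, T3'⟩
  -- different triangles
  have m1 : k ≠ h := by
    rintro rfl
    apply hz'
    have h1 := S.tri_uniq r1' r2
    have h2 := congrArg xinv h1
    rw [hii, hii] at h2
    exact h2.symm
  have m2 : actE z⁻¹ (xinv k) ≠ xinv h := by
    intro h1
    rw [h1] at r3'
    have h2 := S.tri_uniq r1 r3'
    apply hz
    have h3 := congrArg (actE z) h2
    rw [act_back', ← xinv_act] at h3
    have h4 := congrArg xinv h3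
    rwa [hii, hii] at h4
  -- the two closed walks
  have W1 : CRW S [k, xinv e, h, f, y, x] :=
    crw_six hsys c1 c2 c3 (cor_sym w3) (cor_sym w2) (cor_sym w1) m1 n3.symm n2 n1
  have W2 : CRW S [actE z⁻¹ (xinv k), xinv e', xinv h, f', y', x'] :=
    crw_six hsys c1' c2' c3' (cor_sym w3') (cor_sym w2') (cor_sym w1') m2 n3'.symm n2' n1'
  have t1 := tri_t3 (show XT e e' (xinv h) from T1)
  have t2 := tri_t3 (show XT e (actE z e') (xinv k) from T2)
  rw [kndE_act] at t2
  have hkh : kndE k = kndE h := by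
    have h1 := t3_third _ (mem_all _) _ (mem_all _) _ (mem_all _) _ (mem_all _) t1 t2
    have h2 := kndE_xinv (xinv h)
    have h3 := kndE_xinv (xinv k)
    rw [hii] at h2 h3
    rw [h2, h3, h1]
  have hkh' : kndE (actE z⁻¹ (xinv k)) = kinv (kndE h) := by
    rw [kndE_act, kndE_xinv, hkh]
  have T3s : XT (xinv h) f' (xinv f) := T3'
  rw [kndE_xinv] at t1
  rcases hPQ with ⟨p1, p2⟩ | ⟨p1, p2⟩ | ⟨p1, p2⟩ | ⟨p1, p2⟩
  · -- (U', C)
    have hh : kndE h = vm := by
      rw [p1, p2] at t1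
      revert t1; generalize kndE h = κ; cases κ <;> decide
    exact core hA W1 W2 T3 (Or.inl ⟨by rw [hkh, hh], by rw [kndE_xinv, p1]; rfl, hh,
      by rw [hkh', hh]; rfl, by rw [kndE_xinv, p2]; rfl⟩)
  · -- (C, U')
    have hh : kndE h = vp := by
      rw [p1, p2] at t1
      revert t1; generalize kndE h = κ; cases κ <;> decide
    refine core hA W2 (a' := xinv e) (k' := k) (f' := f) (y' := y) (x' := x) ?_ T3' (Or.inl ⟨?_, ?_, ?_, ?_, ?_⟩)
    · rw [hii]; exact W1
    · rw [hkh', hh]; rfl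
    · rw [kndE_xinv, p2]; rfl
    · rw [kndE_xinv, hh]; rfl
    · rw [hkh, hh]
    · rw [kndE_xinv, p1]; rfl
  · -- (V, C')
    have hh : kndE h = up := by
      rw [p1, p2] at t1
      revert t1; generalize kndE h = κ; cases κ <;> decide
    exact core hA W1 W2 T3 (Or.inr ⟨by rw [hkh, hh], by rw [kndE_xinv, p1]; rfl, hh,
      by rw [hkh', hh]; rfl, by rw [kndE_xinv, p2]; rfl⟩)
  · -- (C', V)
    have hh : kndE h = um := by
      rw [p1, p2] at t1
      revert t1; generalize kndE h = κ; cases κ <;> decide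
    refine core hA W2 (a' := xinv e) (k' := k) (f' := f) (y' := y) (x' := x) ?_ T3' (Or.inr ⟨?_, ?_, ?_, ?_, ?_⟩)
    · rw [hii]; exact W1
    · rw [hkh', hh]; rfl
    · rw [kndE_xinv, p2]; rfl
    · rw [kndE_xinv, hh]; rfl
    · rw [hkh, hh]
    · rw [kndE_xinv, p1]; rfl

/-- MLOC for the boundary walks of a disc: the letters `a₀ = e⁻¹`, `a₁ = z e'`, the walk at the tip
is `[e, z e']` -/
theorem mloc_w (hA : ∀ x ∈ A, ∀ y ∈ A, x * y = y * x) {W0 W1 W2 : List (XE A B g)}
    {z : PP A B g} {e e' h f f' a0 a1 : XE A B g}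
    (E0 : ∃ f1 f2 l r, (XX hg hgeo hι).Tri a0 f1 f2 ∧ W0 = l ++ [f1, a0] ∧
      W1 = xinv a0 :: xinv f2 :: r)
    (E1 : ∃ f1 f2 l r, (XX hg hgeo hι).Tri a1 f1 f2 ∧ W1 = l ++ [f1, a1] ∧
      W2 = xinv a1 :: xinv f2 :: r)
    (hred : Red W0) (hch : W0.IsChain (XX hg hgeo hι).Cor)
    (hred2 : Red W2) (hch2 : W2.IsChain (XX hg hgeo hι).Cor)
    (ha : a0 = xinv e) (ha' : a1 = actE z e') (hW : W1 = [e, actE z e'])
    (T1 : (XX hg hgeo hι).Tri e e' (xinv h)) (T3 : (XX hg hgeo hι).Tri h f (xinv f'))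
    (hPQ : PQ (kndE e) (kndE e')) (hz : actE z e ≠ e) (hz' : actE z e' ≠ e')
    (n3 : f ≠ xinv e) (n3' : f' ≠ xinv e')
    (hf : (W0.head? = some f ∧ W0.length = 5) ∨
      (∃ b, W0.head? = some b ∧ (XX hg hgeo hι).Cor b f ∧ W0.length = 4))
    (hf' : (W2.getLast? = some (actE z f') ∧ W2.length = 5) ∨
      (∃ b, W2.getLast? = some b ∧ (XX hg hgeo hι).Cor b (actE z f') ∧ W2.length = 4)) :
    False := by
  set S := XX hg hgeo hι with hS
  have hinv : ∀ e : XE A B g, S.inv e = xinv e := fun _ => rfl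
  have hii : ∀ e : XE A B g, xinv (xinv e) = e := fun e => S.inv_inv e
  obtain ⟨k, f2, l, r, hT, hWi, hWi1⟩ := E0
  obtain ⟨g1, g2, l', r', hT', hWi1', hWi2⟩ := E1
  rw [ha, hii, hW] at hWi1
  simp only [List.cons.injEq, true_and] at hWi1
  have hf2 : f2 = xinv (actE z e') := by
    rw [hWi1.1, hii]
  rw [ha, hf2] at hT
  have T2 : S.Tri e (actE z e') (xinv k) := by
    have h1 := S.tri_rot (S.tri_swap hT)
    rw [hinv, hinv, hinv, hii, hii] at h1
    exact h1
  rw [ha', hW] at hWi1'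
  have hg1 : g1 = e := by
    have h1 : ([] : List (XE A B g)) ++ [e, actE z e'] = l' ++ [g1, actE z e'] := hWi1'
    have h2 := List.append_inj_right' h1 rfl
    simp only [List.cons.injEq, and_true] at h2
    exact h2.symm
  rw [ha', hg1] at hT'
  have hg2 : g2 = k := by
    have h1 := S.tri_swap T2
    rw [hinv, hii] at h1
    exact S.tri_uniq hT' h1
  rw [ha', hg2] at hWi2
  -- the walk at `tgt e`
  obtain ⟨x, y, c1, c2, c3, d1, d2⟩ : ∃ x y, S.Cor k x ∧ S.Cor x y ∧ S.Cor y f ∧ x ≠ xinv e ∧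
      y ≠ k := by
    rw [ha] at hWi
    rw [hWi] at hf hred hch
    rcases hf with ⟨h1, h2⟩ | ⟨b, h1, hb, h2⟩
    · have h3 : l.length = 3 := by simpa using h2
      match l, h3 with
      | [b1, b2, b3], _ =>
        simp only [List.cons_append, List.nil_append, List.head?_cons, Option.some.injEq] at h1
        subst h1
        simp only [List.cons_append, List.nil_append, List.isChain_cons_cons,
          List.isChain_singleton, and_true] at hch
        refine ⟨b3, b2, cor_sym hch.2.2.1, cor_sym hch.2.1, cor_sym hch.1, ?_, ?_⟩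
        · exact hred [b1, b2] b3 k (xinv e) [] (by simp)
        · exact hred [b1] b2 b3 k [xinv e] (by simp)
    · have h3 : l.length = 2 := by simpa using h2
      match l, h3 with
      | [b1, b2], _ =>
        simp only [List.cons_append, List.nil_append, List.head?_cons, Option.some.injEq] at h1
        subst h1
        simp only [List.cons_append, List.nil_append, List.isChain_cons_cons,
          List.isChain_singleton, and_true] at hch
        refine ⟨b2, b1, cor_sym hch.2.1, cor_sym hch.1, hb, ?_, ?_⟩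
        · exact hred [b1] b2 k (xinv e) [] (by simp)
        · exact hred [] b1 b2 k [xinv e] (by simp)
  -- the walk at `tgt (z e')`
  obtain ⟨x', y', c1', c2', c3', d1', d2'⟩ : ∃ x' y', S.Cor (xinv k) x' ∧ S.Cor x' y' ∧
      S.Cor y' (actE z f') ∧ x' ≠ xinv (actE z e') ∧ y' ≠ xinv k := by
    rw [hWi2] at hf' hred2 hch2
    rcases hf' with ⟨h1, h2⟩ | ⟨b, h1, hb, h2⟩
    · have h3 : r'.length = 3 := by simpa using h2
      match r', h3 with
      | [b1, b2, b3], _ =>
        simp only [List.getLast?_cons_cons, List.getLast?_singleton, Option.some.injEq] at h1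
        subst h1
        simp only [List.isChain_cons_cons, List.isChain_singleton, and_true] at hch2
        refine ⟨b1, b2, hch2.2.1, hch2.2.2.1, hch2.2.2.2, ?_, ?_⟩
        · exact (hred2 [] _ (xinv k) b1 [b2, _] rfl).symm
        · exact (hred2 [_] _ b1 b2 [_] rfl).symm
    · have h3 : r'.length = 2 := by simpa using h2
      match r', h3 with
      | [b1, b2], _ =>
        simp only [List.getLast?_cons_cons, List.getLast?_singleton, Option.some.injEq] at h1
        subst h1
        simp only [List.isChain_cons_cons, List.isChain_singleton, and_true] at hch2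
        refine ⟨b1, b2, hch2.2.1, hch2.2.2, hb, ?_, ?_⟩
        · exact (hred2 [] _ (xinv k) b1 [b2] rfl).symm
        · exact (hred2 [_] _ b1 b2 [] rfl).symm
  refine mloc hA T1 T2 T3 hPQ hz hz' c1 c2 c3 d1 d2 n3 (x' := actE z⁻¹ x') (y' := actE z⁻¹ y')
    (cor_act z⁻¹ c1') (cor_act z⁻¹ c2') ?_ ?_ ?_ n3'
  · have h1 := cor_act z⁻¹ c3'
    rwa [act_back] at h1
  · intro h1
    apply d1'
    have h2 := congrArg (actE z) h1
    rwa [act_back', ← xinv_act] at h2
  · intro h1
    exact d2' (act_inj h1)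

end

end Pool.Agent.ABA.B.H24
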