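import Pool.Agent.Helper24_ABA.MLoc
import Pool.Agent.Helper63_ABB.Side
import Pool.Agent.Helper52_ABB.HexLib

/-!
# Claim M (module MLOC, MP_d857f1_al, part B)
-/

set_option autoImplicit false

namespace Pool.Agent.ABA.B.H24

open Knd Pool.Agent.ABA Pool.Agent.ABA.B Pool.Agent.ABA.B.TG Pool.Agent.ABA.B.H17
  Pool.Agent.ABA.B.H49 Pool.Agent.ABA.B.H52

theorem sum_aux (s : Finset ℕ) (f : ℕ → ℤ) (h : ∀ j ∈ s, f j ≤ 0) (hs : -1 ≤ ∑ j ∈ s, f j)
    {j0 : ℕ} (hj : j0 ∈ s) : -1 ≤ f j0 ∧ (f j0 ≤ -1 → ∀ j ∈ s, j ≠ j0 → f j = 0) := by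
  have h1 := Finset.add_sum_erase s f hj
  have h2 : ∀ j ∈ s.erase j0, f j ≤ 0 := fun j hj => h j (Finset.mem_of_mem_erase hj)
  have h3 := Finset.sum_nonpos h2
  refine ⟨by linarith, ?_⟩
  intro h4 j hj1 hj2
  have h5 : ∑ x ∈ s.erase j0, f x = 0 := by linarith
  exact (Finset.sum_eq_zero_iff_of_nonpos h2).1 h5 j (Finset.mem_erase.2 ⟨hj2, hj1⟩)

variable {G : Type} [Group G] {A B : Subgroup G} {g : G}
variable {hg : ¬ IsABA A B g} {hgeo : Geo A B} {hι : Function.Injective (Pι A B g)}
variable {c : ℕ → Car A B g} {ρ : ℕ → PP A B g} {n : ℕ} {C : Cfg (XV A B g) (XE A B g)}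
variable {b e : ℕ} {W : ℕ → List (XE A B g)}

theorem xii (e : XE A B g) : xinv (xinv e) = e := by
  refine XE.ind (P := fun e => xinv (xinv e) = e) ?_ ?_ e
  · intro m q
    rw [xinv_eA, xinv_eA, trn_inv]
    simp
  · intro s q
    rw [xinv_eC, xinv_eC]
    cases s <;> simp [trc]

/-- STRIP along the end of a leg -/
theorem stripF (hA : ∀ x ∈ A, ∀ y ∈ A, x * y = y * x) (hS : StripStmt hg hgeo hι)
    (hCh : Chn hg hgeo hι c ρ n) (hOk : Ok hg hgeo hι c n C) (hP : H52.Pc hg hgeo hι c C b e W)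
    {t j0 : ℕ} (h1 : C.m t ≤ j0) (h2 : j0 < C.o (t + 1)) (hb : b ≤ j0) (he : C.o (t + 1) ≤ e)
    (h4 : ∀ j, j0 < j → j < C.o (t + 1) → (W j).length = 4) {e2 : XE A B g}
    (hprj : Prj hg hgeo hι (c (t + 1)) (xsrc (C.lt j0)) e2) (hne : e2 ≠ C.lt j0) :
    tcm hg hgeo hι c C (t + 1) := by
  have hn := hCh.ps
  obtain ⟨k, hk⟩ : ∃ k, C.o (t + 1) = j0 + (k + 1) := ⟨C.o (t + 1) - j0 - 1, by omega⟩
  have hpath := hOk.sgP hn j0 (k + 1)
  rw [← hk, hOk.src_o hn] at hpath
  have hlen := (leg_dist hCh hOk h1 h2.le).1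
  obtain ⟨a, μ, ha, hμ, hcor⟩ := hS (c (t + 1)) (xsrc (C.lt j0)) (C.xm (t + 1)) (C.sg j0 (k + 1)) e2
    (hCh.pl (t + 1)) hpath (hOk.om (t + 1)) (by rw [hlen, Cfg.sg_length]; omega) (by
      intro l a b' r hl m h5 h6
      have hl1 : l.length + 1 < k + 1 := by
        have := congrArg List.length hl
        simp at this
        omega
      have ha : a = C.lt (j0 + l.length) := by
        have := C.sg_get? (a := j0) (k := k + 1) (j := l.length) (by omega)
        rw [hl] at this
        simpa using this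
      have hb' : b' = C.lt (j0 + l.length + 1) := by
        have := C.sg_get? (a := j0) (k := k + 1) (j := l.length + 1) hl1
        rw [hl] at this
        simpa [← add_assoc] using this
      rw [ha] at h5
      rw [hb'] at h6
      exact H63.straight hA hP (by omega) (by omega) (h4 (j0 + l.length + 1) (by omega) (by omega))
        m h5 h6) hprj
    (by rw [Cfg.sg_succ, List.head?_cons]; intro h; exact hne (Option.some.inj h).symm)
    (by rw [Cfg.sg_succ]; simp)
  have hlast : (C.sg j0 (k + 1)).getLast? = some (C.lt (C.o (t + 1) - 1)) := by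
    rw [Cfg.sg_last, List.getLast?_append]
    simp only [List.getLast?_singleton, Option.some_or, Option.some.injEq]
    congr 1; omega
  rw [hlast] at ha
  exact ⟨μ, hμ, by rw [eM, Option.some.inj ha]; exact hcor⟩

/-- STRIP along the beginning of a leg, backwards -/
theorem stripB (hA : ∀ x ∈ A, ∀ y ∈ A, x * y = y * x) (hS : StripStmt hg hgeo hι)
    (hCh : Chn hg hgeo hι c ρ n) (hOk : Ok hg hgeo hι c n C) (hP : H52.Pc hg hgeo hι c C b e W)
    {t j0 : ℕ} (h1 : C.m t < j0) (h2 : j0 ≤ C.o (t + 1)) (hb : b ≤ C.m t) (he : j0 ≤ e)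
    (h4 : ∀ j, C.m t < j → j < j0 → (W j).length = 4) {e2 : XE A B g}
    (hprj : Prj hg hgeo hι (c t) (xsrc (C.lt j0)) e2) (hne : e2 ≠ xinv (C.lt (j0 - 1))) :
    tcp hg hgeo hι c C t := by
  have hn := hCh.ps
  obtain ⟨k, hk⟩ : ∃ k, j0 = C.m t + (k + 1) := ⟨j0 - C.m t - 1, by omega⟩
  have hpath := (hOk.sgP hn (C.m t) (k + 1)).rv
  rw [← hk, hOk.src_m hn] at hpath
  have hlen := (leg_dist hCh hOk h1.le h2).2
  have hinv : ∀ e : XE A B g, (XX hg hgeo hι).inv e = xinv e := fun _ => rfl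
  obtain ⟨a, μ, ha, hμ, hcor⟩ := hS (c t) (xsrc (C.lt j0)) (C.xp t)
    ((XX hg hgeo hι).rv (C.sg (C.m t) (k + 1))) e2
    (hCh.pl t) hpath (hOk.op t) (by rw [hlen, rv_length, Cfg.sg_length]; omega) (by
      intro l a b' r hl m h5 h6
      have hl' : C.sg (C.m t) (k + 1) =
          (XX hg hgeo hι).rv r ++ (xinv b' :: xinv a :: (XX hg hgeo hι).rv l) := by
        have := congrArg (XX hg hgeo hι).rv hl
        rw [rv_rv] at this
        rw [this]
        simp only [rv_append, rv_cons, List.append_assoc, List.cons_append, List.nil_append]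
        rfl
      have hl1 : r.length + 1 < k + 1 := by
        have := congrArg List.length hl'
        simp at this
        omega
      have hb' : xinv b' = C.lt (C.m t + r.length) := by
        have := C.sg_get? (a := C.m t) (k := k + 1) (j := r.length) (by omega)
        rw [hl'] at this
        simpa using this
      have ha : xinv a = C.lt (C.m t + r.length + 1) := by
        have := C.sg_get? (a := C.m t) (k := k + 1) (j := r.length + 1) hl1
        rw [hl'] at this
        simpa [← add_assoc] using this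
      refine H63.straight hA hP (j := C.m t + r.length) (by omega) (by omega)
        (h4 (C.m t + r.length + 1) (by omega) (by omega)) m ?_ ?_
      · rw [← hb', xii]; exact cor_sym h6
      · rw [← ha]; exact cor_sym h5) hprj
    (by
      rw [Cfg.sg_last, rv_append]
      simp only [rv_cons, rv_nil, List.nil_append, List.cons_append, List.head?_cons]
      intro h
      apply hne
      rw [← Option.some.inj h, hinv]
      congr 2; omega)
    (by rw [Cfg.sg_succ]; simp)
  have hlast : ((XX hg hgeo hι).rv (C.sg (C.m t) (k + 1))).getLast? = some (xinv (C.lt (C.m t))) := by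
    rw [Cfg.sg_succ, rv_cons, List.getLast?_append]
    rfl
  rw [hlast] at ha
  refine ⟨μ, hμ, ?_⟩
  have h7 : xinv a = C.lt (C.m t) := by rw [← Option.some.inj ha, xii]
  rw [eP, ← h7]; exact hcor

/-- values at the inner vertices of a leg -/
theorem leg_val (hP : H52.Pc hg hgeo hι c C b e W) {t j0 : ℕ} (hb : b ≤ C.m t)
    (he : C.o (t + 1) ≤ e) (hc : -1 ≤ cs C W t) (h1 : C.m t < j0) (h2 : j0 < C.o (t + 1)) :
    ((W j0).length = 4 ∨ (W j0).length = 5) ∧ ((W j0).length = 5 →
      ∀ j, C.m t < j → j < C.o (t + 1) → j ≠ j0 → (W j).length = 4) := by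
  have h3 : ∀ j ∈ Finset.Ioo (C.m t) (C.o (t + 1)), val (W j) ≤ 0 := by
    intro j hj
    rw [Finset.mem_Ioo] at hj
    have := hP.leg t j hj.1 hj.2 (by omega) (by omega)
    rw [val]; omega
  have hj : j0 ∈ Finset.Ioo (C.m t) (C.o (t + 1)) := Finset.mem_Ioo.2 ⟨h1, h2⟩
  obtain ⟨h4, h5⟩ := sum_aux _ _ h3 hc hj
  have h6 := h3 j0 hj
  rw [val] at h4 h6
  refine ⟨by omega, ?_⟩
  intro hl j hj1 hj2 hj3
  have h7 := h5 (by rw [val]; omega) j (Finset.mem_Ioo.2 ⟨hj1, hj2⟩) hj3
  rw [val] at h7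
  omega

theorem prj_act {Q : Car A B g} {x : XV A B g} {e : XE A B g} (z : PP A B g)
    (h : Prj hg hgeo hι Q x e) : Prj hg hgeo hι (z • Q) (z • x) (actE z e) := by
  obtain ⟨h1, h2⟩ := h
  refine ⟨by rw [xsrc_act, h1], ?_⟩
  rw [xinv_act, xsrc_act, dVC_smul, dVC_smul]
  exact h2

/-- module MLOC -/
theorem mloc_stmt (hA : ∀ x ∈ A, ∀ y ∈ A, x * y = y * x) (hFix : FixStmt A B g)
    (hPr : PrjStmt hg hgeo hι) (hEd : EdgeStmt hg hgeo hι) (hS : StripStmt hg hgeo hι) :
    MlocStmt hg hgeo hι := by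
  intro c ρ n C b e W hCh hOk hNb hP t hn2 hb he hM hc1 hc2 ht1 ht2
  obtain ⟨hs, hfix, hW, e', hprj', hcor, heP, hPQ⟩ := hM
  have he : C.o (t + 1 + 1) < e := he
  have hn := hCh.ps
  have hsys := hsysX (hg := hg) (hgeo := hgeo) (hι := hι) hA
  have hc6 : c (t + 1 + 5) = c t := by rw [add_assoc]; exact hCh.pc t
  rw [hc6] at hprj'
  have hm : C.m (t + 1) = C.o (t + 1) := C.m_eq_o.2 hs
  have ho1 := hOk.o_succ t
  have ho2 := hOk.o_succ (t + 1)
  have hom := C.o_le_m t
  obtain ⟨p, hp⟩ : ∃ p, C.o (t + 1) = p + 2 := ⟨C.o (t + 1) - 2, by omega⟩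
  have hxv : xsrc (C.lt (p + 2)) = C.xm (t + 1) := by rw [← hp]; exact hOk.src_o hn (t + 1)
  have hE : eM C (t + 1) = xinv (C.lt (p + 1)) := by
    rw [eM, hp]; rfl
  have hEP : eP C (t + 1) = C.lt (p + 2) := by rw [eP, hm, hp]
  rw [hE] at hcor hPQ hW
  rw [hEP] at heP hW
  rw [hp] at hW
  set E : XE A B g := xinv (C.lt (p + 1)) with hEdef
  set z := ρ (t + 1) with hz
  have hv : xsrc (xinv E) = xsrc (C.lt (p + 1)) := by rw [hEdef, xii]
  -- distances
  have d0 := leg_dist hCh hOk (i := t) (t := p + 2) (by omega) (by omega)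
  have d1 := leg_dist hCh hOk (i := t) (t := p + 1) (by omega) (by omega)
  have d2 := leg_dist hCh hOk (i := t) (t := p) (by omega) (by omega)
  rw [hxv] at d0
  obtain ⟨hsrc', hdst'⟩ := hprj'
  have de' : dVC hg hgeo hι (xsrc (xinv e')) (c t) = n - 1 := by omega
  -- the edge h
  obtain ⟨h, hT⟩ := hcor
  have T1 : (XX hg hgeo hι).Tri E e' (xinv h) := (XX hg hgeo hι).tri_swap hT
  have hh1 : xsrc h = xsrc (xinv E) := (XX hg hgeo hι).tri_mid hT
  have hh2 : xsrc (xinv h) = xsrc (xinv e') := (XX hg hgeo hι).tri_tgt hT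
  obtain ⟨f, f1, hT3, hprjf, hprjf1⟩ := hEd (c t) h (hCh.pl t)
    (by rw [hh1, hh2, hv, d1.2, de']; omega) (by rw [hh1, hv, d1.2]; omega)
  obtain ⟨f', hf'⟩ : ∃ f', f1 = xinv f' := ⟨xinv f1, (xii f1).symm⟩
  rw [hf'] at hT3 hprjf1
  rw [xii, hh2] at hprjf1
  rw [hh1, hv] at hprjf
  have n3 : f ≠ xinv E := by
    intro h1
    have h2 := hprjf.2
    rw [h1, xii, d1.2] at h2
    have h3 : xsrc E = C.xm (t + 1) := by
      have := eM_src hOk hn t
      rwa [hE] at this
    rw [h3, d0.2] at h2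
    omega
  have n3' : f' ≠ xinv e' := by
    intro h1
    have h2 := hprjf1.2
    rw [h1, xii, hsrc', d0.2, de'] at h2
    omega
  -- FIX
  have hfx : ∀ y : XV A B g, z • y = y → On (c (t + 1)) y := by
    intro y hy
    obtain ⟨k1, k2⟩ := hFix (c (t + 1)) z (hCh.n1 (t + 1)) (hCh.st (t + 1))
    by_cases hr : Rot z
    · exact (k1 hr y).1 hy
    · exact absurd hy (k2 hr y)
  have hz1 : actE z E ≠ E := by
    intro h1
    have h2 : On (c (t + 1)) (xsrc (xinv E)) := by
      apply hfx
      rw [← xsrc_act, ← xinv_act, h1]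
    rw [hv] at h2
    have h3 := dVC_on (hg := hg) (hgeo := hgeo) (hι := hι) h2
    rw [d1.1] at h3
    omega
  have hz2 : actE z e' ≠ e' := by
    intro h1
    have h2 : On (c (t + 1)) (xsrc (xinv e')) := by
      apply hfx
      rw [← xsrc_act, ← xinv_act, h1]
    have h3 := dCC_le_dVC (hg := hg) (hgeo := hgeo) (hι := hι) (c' := c t) h2
    rw [dCC_comm, hCh.ds t, de'] at h3
    omega
  -- the walk before the tip
  have L1 := leg_val hP (t := t) (j0 := p + 1) hb.le (by omega) hc1 (by omega) (by omega)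
  obtain ⟨g1, g2, l0, r0, hTm, -, hWm, -⟩ := hP.edg p (by omega) (by omega)
  obtain ⟨k1, k2, l1, r1, hTa, hWa, hWb, -⟩ := hP.edg (p + 1) (by omega) (by omega)
  obtain ⟨k3, k4, l2, r2, hTb, hWc, hWd, -⟩ := hP.edg (p + 2) (by omega) (by omega)
  have hbl : Prj hg hgeo hι (c t) (xsrc (C.lt (p + 1))) (xinv (C.lt p)) := by
    refine ⟨(hOk.path hn p).symm, ?_⟩
    rw [xii, d2.2, d1.2]; omega
  have hf : ((W (p + 1)).head? = some f ∧ (W (p + 1)).length = 5) ∨
      (∃ b, (W (p + 1)).head? = some b ∧ (XX hg hgeo hι).Cor b f ∧ (W (p + 1)).length = 4) := by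
    have hhd : (W (p + 1)).head? = some (xinv (C.lt p)) := by rw [hWm]; rfl
    rcases hPr (c t) _ _ _ (hCh.pl t) hbl hprjf with h1 | h1
    · rcases L1.1 with h2 | h2
      · exfalso
        -- closed walk of length five
        have hch := hP.chain (p + 1) (by omega) (by omega)
        have hl : l1.length = 2 := by
          rw [hWa] at h2; simpa using h2
        obtain ⟨q1, q2, rfl⟩ := List.length_eq_two.1 hl
        have hq : q1 = f := by
          rw [hWa, h1] at hhd
          simpa using hhd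
        rw [hWa, hq] at hch
        simp only [List.cons_append, List.nil_append, List.isChain_cons_cons,
          List.isChain_singleton, and_true] at hch
        obtain ⟨c1, c2, c3⟩ := hch
        have c4 : (XX hg hgeo hι).Cor (C.lt (p + 1)) h := by
          have h3 := (XX hg hgeo hι).tri_rot hT
          have h4 : (XX hg hgeo hι).inv E = C.lt (p + 1) := xii _
          rw [h4] at h3
          exact ⟨_, h3⟩
        exact no5 hsys c1 c2 c3 c4 ⟨_, hT3⟩
      · exact Or.inl ⟨by rw [hhd, h1], h2⟩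
    · rcases L1.1 with h2 | h2
      · exact Or.inr ⟨_, hhd, h1, h2⟩
      · exfalso
        apply ht1
        refine stripB hA hS hCh hOk hP (j0 := p + 1) (by omega) (by omega) hb.le (by omega) ?_
          hprjf ?_
        · intro j hj1 hj2
          exact L1.2 h2 j hj1 (by omega) (by omega)
        · rw [Nat.add_sub_cancel]
          exact (cor_ne h1).symm
  -- the walk after the tip
  have L2 := leg_val hP (t := t + 1) (j0 := p + 3) (by omega) he.le hc2 (by omega) (by omega)
  have e1 := leg_dist hCh hOk (i := t + 1) (t := p + 3) (by omega) (by omega)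
  have e2 := leg_dist hCh hOk (i := t + 1) (t := p + 4) (by omega) (by omega)
  obtain ⟨k5, k6, l3, r3, hTc, hWe, -, -⟩ := hP.edg (p + 3) (by omega) (by omega)
  have hnx : z • c t = c (t + 2) := hCh.nx t
  have hsv : xsrc (C.lt (p + 3)) = z • xsrc (xinv e') := by
    have h1 := hOk.path hn (p + 2)
    rw [show p + 2 + 1 = p + 3 by omega, heP, xinv_act, xsrc_act] at h1
    exact h1
  have hprz : Prj hg hgeo hι (c (t + 2)) (xsrc (C.lt (p + 3))) (actE z f') := by
    have := prj_act z hprjf1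
    rwa [hnx, ← hsv] at this
  have hfl : Prj hg hgeo hι (c (t + 2)) (xsrc (C.lt (p + 3))) (C.lt (p + 3)) := by
    refine ⟨rfl, ?_⟩
    rw [← hOk.path hn (p + 3), show p + 3 + 1 = p + 4 by omega]
    have h1 := e1.1
    have h2 := e2.1
    rw [show t + 1 + 1 = t + 2 by omega] at h1 h2
    have h3 : C.o (t + 2) = C.m (t + 1) + n := ho2
    rw [h1, h2]; omega
  have hf2 : ((W (p + 3)).getLast? = some (actE z f') ∧ (W (p + 3)).length = 5) ∨
      (∃ b, (W (p + 3)).getLast? = some b ∧ (XX hg hgeo hι).Cor b (actE z f') ∧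
        (W (p + 3)).length = 4) := by
    have hgl : (W (p + 3)).getLast? = some (C.lt (p + 3)) := by rw [hWe]; simp
    rcases hPr (c (t + 2)) _ _ _ (hCh.pl (t + 2)) hfl hprz with h1 | h1
    · rcases L2.1 with h2 | h2
      · exfalso
        have hch := hP.chain (p + 3) (by omega) (by omega)
        rw [show p + 2 + 1 = p + 3 by omega] at hWd
        have hl : r2.length = 2 := by
          rw [hWd] at h2; simpa using h2
        obtain ⟨q1, q2, rfl⟩ := List.length_eq_two.1 hl
        have hq : q2 = actE z f' := by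
          rw [hWd, h1] at hgl
          simpa using hgl
        rw [hWd, hq, heP] at hch
        simp only [List.isChain_cons_cons, List.isChain_singleton, and_true] at hch
        obtain ⟨c1, c2, c3⟩ := hch
        have c4 : (XX hg hgeo hι).Cor (actE z f') (actE z (xinv h)) := by
          apply cor_act
          have h3 := (XX hg hgeo hι).tri_rot ((XX hg hgeo hι).tri_swap hT3)
          have h4 : (XX hg hgeo hι).inv (xinv f') = f' := xii _
          rw [h4] at h3
          exact cor_sym ⟨_, h3⟩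
        have c5 : (XX hg hgeo hι).Cor (actE z (xinv h)) (xinv (actE z e')) := by
          rw [xinv_act]
          apply cor_act
          have h3 := (XX hg hgeo hι).tri_rot T1
          exact cor_sym ⟨_, h3⟩
        exact no5 hsys c1 c2 c3 c4 c5
      · exact Or.inl ⟨by rw [hgl, h1], h2⟩
    · rcases L2.1 with h2 | h2
      · exact Or.inr ⟨_, hgl, h1, h2⟩
      · exfalso
        apply ht2
        refine stripF hA hS hCh hOk hP (t := t + 1) (j0 := p + 3) (by omega) (by omega) (by omega)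
          (by omega) ?_ hprz (cor_ne h1).symm
        intro j hj1 hj2
        exact L2.2 h2 j (by omega) hj2 (by omega)
  exact mloc_w hA (W0 := W (p + 1)) (W1 := W (p + 2)) (W2 := W (p + 3)) (z := z) (e := E)
    (e' := e') (h := h) (f := f) (f' := f') (a0 := C.lt (p + 1)) (a1 := C.lt (p + 2))
    ⟨k1, k2, l1, r1, hTa, hWa, hWb⟩ ⟨k3, k4, l2, r2, hTb, hWc, hWd⟩
    (hP.red _ (by omega) (by omega)) (hP.chain _ (by omega) (by omega))
    (hP.red _ (by omega) (by omega)) (hP.chain _ (by omega) (by omega))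
    (xii _).symm heP (by rw [hW, heP]) T1 hT3 hPQ hz1 hz2 n3 n3' hf hf2

end Pool.Agent.ABA.B.H24
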