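import Pool.Agent.Helper49_ABB.Walk
import Pool.Agent.Helper24_ABA.MLocG

/-!
# The two legs at a tip with empty side start with different letters (SPUR, MP_d857f1_al, part B)
-/

set_option autoImplicit false

namespace Pool.Agent.ABA.B.H24

open Knd Pool.Agent.ABA Pool.Agent.ABA.B Pool.Agent.ABA.B.TG Pool.Agent.ABA.B.H17
  Pool.Agent.ABA.B.H89 Pool.Agent.ABA.B.H49 Pool.Agent.ABA.B.H52

variable {G : Type} [Group G] {A B : Subgroup G} {g : G}
variable {hg : ¬ IsABA A B g} {hgeo : Geo A B} {hι : Function.Injective (Pι A B g)}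

theorem isH_pl {Q : Car A B g} (hQ : IsPl Q) {e : XE A B g} (he : car e = Q) :
    (kndE e).isH = true := by
  by_contra h
  obtain ⟨s, q, rfl⟩ := isC_form (Bool.not_eq_true _ ▸ h)
  obtain ⟨p, hp⟩ := hQ
  rw [hp] at he
  exact absurd he (by intro h; cases h)

/-- core form -/
theorem spur_core (hA : ∀ x ∈ A, ∀ y ∈ A, x * y = y * x) (hFix : FixStmt A B g)
    (hPr : PrjStmt hg hgeo hι) (hEd : EdgeStmt hg hgeo hι) (hNs : NsegStmt hg hgeo hι)
    {F Q : Car A B g} {z : PP A B g} {x : XV A B g} {e : XE A B g} {n : ℕ}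
    (hF : IsPl F) (hQ : IsPl Q) (hn : 1 ≤ n) (hd : dCC hg hgeo hι F Q = n) (hz : z • F = F)
    (hz1 : z ≠ 1) (hx : On F x) (hdx : dVC hg hgeo hι x Q = n)
    (hdx' : dVC hg hgeo hι (z • x) Q = n)
    (h1 : Prj hg hgeo hι Q x e) (h2 : Prj hg hgeo hι Q (z • x) (actE z e)) : False := by
  have hfx : ∀ y : XV A B g, z • y = y → On F y := by
    intro y hy
    obtain ⟨k1, k2⟩ := hFix F z hz1 hz
    by_cases hr : Rot z
    · exact (k1 hr y).1 hy
    · exact absurd hy (k2 hr y)
  have hout : ∀ y : XV A B g, On F y → n ≤ dVC hg hgeo hι y Q := by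
    intro y hy
    have := dCC_le_dVC (hg := hg) (hgeo := hgeo) (hι := hι) (c' := Q) hy
    omega
  -- letters of shortest paths are not in `F`
  have hcar : ∀ (y : XV A B g) (f : XE A B g), dVC hg hgeo hι y Q = n → Prj hg hgeo hι Q y f →
      car f ≠ F := by
    intro y f hy hf hcf
    have h3 := On_tgt f
    rw [hcf] at h3
    have h4 := hout _ h3
    have h5 := hf.2
    omega
  by_cases hxx : z • x = x
  · rw [hxx] at h2
    rcases hPr Q x _ _ hQ h1 h2 with h3 | h3
    · have h4 : z • xsrc (xinv e) = xsrc (xinv e) := by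
        rw [← xsrc_act, ← xinv_act, ← h3]
      have h5 := hout _ (hfx _ h4)
      have h6 := h1.2
      omega
    · exact (tip_ G A B g hg hgeo hι).1 z e h3
  · have hx' : On F (z • x) := by
      have := On.smul hx z
      rwa [hz] at this
    obtain ⟨h, hch, hs, ht⟩ := hNs F Q x (z • x) n hF hQ hn hd hx hx' hdx hdx' (Ne.symm hxx)
    obtain ⟨f, f1, hT, hpf, hpf1⟩ := hEd Q h hQ (by rw [hs, ht, hdx, hdx']) (by rw [hs, hdx]; exact hn)
    rw [hs] at hpf
    rw [ht] at hpf1
    obtain ⟨f', rfl⟩ : ∃ f', f1 = xinv f' := ⟨xinv f1, (xii f1).symm⟩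
    rw [xii] at hpf1
    have hFh : (kndE h).isH = true := isH_pl hF hch
    -- pulled back letters
    have hTi := tri_act z⁻¹ hT
    set m' := actE z⁻¹ (xinv h) with hm'
    set k := actE z⁻¹ f' with hk
    have hprk : Prj hg hgeo hι (z⁻¹ • Q) x k := by
      have := prj_act z⁻¹ hpf1
      rwa [inv_smul_smul] at this
    have hcm : car m' = F := by
      have : car (xinv h) = F := by rw [car_inv, hch]
      rw [hm', car_act, this, inv_smul_eq_iff, hz]
    have hck : car k ≠ F := by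
      have h3 := hcar _ _ hdx' hpf1
      rw [hk, car_act]
      intro h4
      rw [inv_smul_eq_iff, hz] at h4
      exact h3 h4
    have hcf : car f ≠ F := hcar _ _ hdx hpf
    -- corners
    have c1 : (XX hg hgeo hι).Cor h f := ⟨_, hT⟩
    have c4 : (XX hg hgeo hι).Cor k m' := by
      apply cor_act
      have h3 := (XX hg hgeo hι).tri_rot ((XX hg hgeo hι).tri_swap hT)
      have h4 : (XX hg hgeo hι).inv (xinv f') = f' := xii _
      rw [h4] at h3
      exact cor_sym ⟨_, h3⟩
    have hne : h ≠ m' := by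
      intro h3
      have h4 := congrArg kndE h3
      rw [hm', kndE_act, kndE_xinv] at h4
      revert h4
      generalize kndE h = κ
      cases κ <;> decide
    have hfk : f ≠ k := by
      intro h3
      have h4 : actE z f = f' := by rw [h3, hk, act_back']
      have h5 : xsrc (xinv f') = xsrc (xinv f) := (XX hg hgeo hι).tri_mid hT
      have h6 : z • xsrc (xinv f) = xsrc (xinv f) := by
        rw [← xsrc_act, ← xinv_act, h4, h5]
      have h7 := hout _ (hfx _ h6)
      have h8 := hpf.2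
      omega
    have key : ∀ v : List (XE A B g), Wk (XX hg hgeo hι) v h m' → TFst v → TLst v →
        v.length ≤ 5 → False := by
      intro v hv hv1 hv2 hl
      have := (tw_ G A B g hg hgeo hι hA v h m' hv hv1 hv2 hFh (by rw [hch, hcm]) hne).1
      omega
    have hfe : f = e ∨ (XX hg hgeo hι).Cor f e := hPr Q x _ _ hQ hpf h1
    have hek : e = k ∨ (XX hg hgeo hι).Cor e k := by
      rcases hPr Q _ _ _ hQ h2 hpf1 with h3 | h3
      · left
        rw [hk, ← h3, act_back]
      · right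
        have := cor_act z⁻¹ h3
        rwa [act_back] at this
    rcases hfe with h3 | h3 <;> rcases hek with h4 | h4
    · exact hfk (h3.trans h4)
    · rw [← h3] at h4
      exact key [h, f, k, m'] ⟨by simp [c1, h4, c4], by simp, by simp⟩
        ⟨h, f, [k, m'], rfl, by rw [hch]; exact hcf⟩ ⟨[h, f], k, m', rfl, by rw [hcm]; exact hck⟩
        (by simp)
    · rw [h4] at h3
      exact key [h, f, k, m'] ⟨by simp [c1, h3, c4], by simp, by simp⟩
        ⟨h, f, [k, m'], rfl, by rw [hch]; exact hcf⟩ ⟨[h, f], k, m', rfl, by rw [hcm]; exact hck⟩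
        (by simp)
    · exact key [h, f, e, k, m'] ⟨by simp [c1, h3, h4, c4], by simp, by simp⟩
        ⟨h, f, [e, k, m'], rfl, by rw [hch]; exact hcf⟩
        ⟨[h, f, e], k, m', rfl, by rw [hcm]; exact hck⟩
        (by simp)

/-- SPUR -/
theorem spur_stmt (hA : ∀ x ∈ A, ∀ y ∈ A, x * y = y * x) (hFix : FixStmt A B g)
    (hPr : PrjStmt hg hgeo hι) (hEd : EdgeStmt hg hgeo hι) (hNs : NsegStmt hg hgeo hι) :
    SpurStmt hg hgeo hι := by
  intro c ρ n C hCh hOk t hs heq
  have hn := hCh.ps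
  have hm : C.m (t + 1) = C.o (t + 1) := C.m_eq_o.2 hs
  have h1 := eP_prj hCh hOk (t + 1)
  have h2 := eM_prj hCh hOk t
  have hxx : C.xm (t + 1) = C.xp (t + 1) := by
    have h3 := (hOk.side (t + 1)).1
    rw [hs] at h3
    exact h3
  rw [heq, hxx] at h2
  have h3 := prj_act (ρ (t + 1)) h2
  rw [hCh.nx t] at h3
  have ho1 := hOk.o_succ t
  have ho2 := hOk.o_succ (t + 1)
  have d1 := (leg_dist hCh hOk (i := t + 1) (t := C.m (t + 1)) le_rfl (by omega)).1
  have d2 := (leg_dist hCh hOk (i := t) (t := C.o (t + 1)) (by omega) le_rfl).2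
  rw [hOk.src_m hn] at d1
  rw [hOk.src_o hn, hxx] at d2
  refine spur_core hA hFix hPr hEd hNs (hCh.pl (t + 1)) (hCh.pl (t + 2)) hn (hCh.ds (t + 1))
    (hCh.st (t + 1)) (hCh.n1 (t + 1)) (hOk.op (t + 1)) ?_ ?_ h1 h3
  · show dVC hg hgeo hι _ (c (t + 1 + 1)) = n
    rw [d1]; omega
  · rw [← hCh.nx t, dVC_smul, d2]; omega

end Pool.Agent.ABA.B.H24
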