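import Pool.Agent.Helper24_ABA.Spur
import Pool.Agent.Helper49_ABB.M0

/-!
# Tips with nonempty side (TIP1, MP_d857f1_al, part B)
-/

set_option autoImplicit false

namespace Pool.Agent.ABA.B.H24

open Knd Pool.Agent.ABA Pool.Agent.ABA.B Pool.Agent.ABA.B.TG Pool.Agent.ABA.B.H17
  Pool.Agent.ABA.B.H89 Pool.Agent.ABA.B.H49 Pool.Agent.ABA.B.H52

variable {G : Type} [Group G] {A B : Subgroup G} {g : G}

section

variable (hg : ¬ IsABA A B g) (hgeo : Geo A B) (hι : Function.Injective (Pι A B g))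

/-- a side with one letter `h : x → y` in the plane `F`, with the walks at `x` and `y` -/
structure Ft (F Q Q' : Car A B g) (r : PP A B g) (n : ℕ) (x y : XV A B g)
    (h f1 f2 eM eP : XE A B g) (Wo Wm : List (XE A B g)) : Prop where
  plF : IsPl F
  plQ : IsPl Q
  plQ' : IsPl Q'
  n1 : 1 ≤ n
  r1 : r ≠ 1
  rF : r • F = F
  rQ : r • Q' = Q
  ds : dCC hg hgeo hι F Q = n
  ds' : dCC hg hgeo hι F Q' = n
  ch : car h = F
  sx : xsrc h = x
  sy : xsrc (xinv h) = y
  dx : dVC hg hgeo hι x Q' = n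
  dy : dVC hg hgeo hι y Q = n
  pM : Prj hg hgeo hι Q' x eM
  pP : Prj hg hgeo hι Q y eP
  T : (XX hg hgeo hι).Tri h f1 f2
  c1 : car f1 ≠ F
  c2 : car f2 ≠ F
  cho : Wo.IsChain (XX hg hgeo hι).Cor
  chm : Wm.IsChain (XX hg hgeo hι).Cor
  ro : Red Wo
  rm : Red Wm
  wo : ∃ l, Wo = l ++ [f1, h]
  wm : ∃ l, Wm = xinv h :: xinv f2 :: l
  ho : Wo.head? = some eM
  hm : Wm.getLast? = some eP
  lo : 3 ≤ Wo.length
  lm : 3 ≤ Wm.length

end

variable {hg : ¬ IsABA A B g} {hgeo : Geo A B} {hι : Function.Injective (Pι A B g)}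
variable {F Q Q' : Car A B g} {r : PP A B g} {n : ℕ} {x y : XV A B g}
  {h f1 f2 eM eP : XE A B g} {Wo Wm : List (XE A B g)}

theorem red_rev {W : List (XE A B g)} (h : Red W) : Red W.reverse := by
  intro l a b c r hlr
  refine (h r.reverse c b a l.reverse ?_).symm
  have := congrArg List.reverse hlr
  rw [List.reverse_reverse] at this
  rw [this]
  simp

theorem chain_rev {W : List (XE A B g)} (h : W.IsChain (XX hg hgeo hι).Cor) :
    W.reverse.IsChain (XX hg hgeo hι).Cor := by
  rw [List.isChain_reverse]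
  exact h.imp (fun a b hab => cor_sym hab)

namespace Ft

theorem mir (H : Ft hg hgeo hι F Q Q' r n x y h f1 f2 eM eP Wo Wm) :
    Ft hg hgeo hι F Q' Q r⁻¹ n y x (xinv h) (xinv f2) (xinv f1) eP eM Wm.reverse Wo.reverse where
  plF := H.plF
  plQ := H.plQ'
  plQ' := H.plQ
  n1 := H.n1
  r1 := by simpa using H.r1
  rF := by rw [inv_smul_eq_iff, H.rF]
  rQ := by rw [inv_smul_eq_iff, H.rQ]
  ds := H.ds'
  ds' := H.ds
  ch := by rw [car_inv]; exact H.ch
  sx := H.sy
  sy := by rw [xii]; exact H.sx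
  dx := H.dy
  dy := H.dx
  pM := H.pP
  pP := H.pM
  T := tri_rev H.T
  c1 := by rw [car_inv]; exact H.c2
  c2 := by rw [car_inv]; exact H.c1
  cho := chain_rev H.chm
  chm := chain_rev H.cho
  ro := red_rev H.rm
  rm := red_rev H.ro
  wo := by
    obtain ⟨l, hl⟩ := H.wm
    exact ⟨l.reverse, by rw [hl]; simp⟩
  wm := by
    obtain ⟨l, hl⟩ := H.wo
    exact ⟨l.reverse, by rw [hl, xii, xii]; simp⟩
  ho := by rw [List.head?_reverse]; exact H.hm
  hm := by rw [List.getLast?_reverse]; exact H.ho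
  lo := by rw [List.length_reverse]; exact H.lm
  lm := by rw [List.length_reverse]; exact H.lo

theorem ox (H : Ft hg hgeo hι F Q Q' r n x y h f1 f2 eM eP Wo Wm) : On F x := by
  rw [← H.ch, ← H.sx]; exact On_src h

theorem oy (H : Ft hg hgeo hι F Q Q' r n x y h f1 f2 eM eP Wo Wm) : On F y := by
  rw [← H.ch, ← H.sy]; exact On_tgt h

theorem smQ (H : Ft hg hgeo hι F Q Q' r n x y h f1 f2 eM eP Wo Wm) (z : XV A B g) :
    dVC hg hgeo hι (r • z) Q = dVC hg hgeo hι z Q' := by
  rw [← H.rQ, dVC_smul]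

theorem out (H : Ft hg hgeo hι F Q Q' r n x y h f1 f2 eM eP Wo Wm) {z : XV A B g}
    (hz : On F z) : n ≤ dVC hg hgeo hι z Q := by
  have := dCC_le_dVC (hg := hg) (hgeo := hgeo) (hι := hι) (c' := Q) hz
  rwa [H.ds] at this

theorem carP (H : Ft hg hgeo hι F Q Q' r n x y h f1 f2 eM eP Wo Wm) {z : XV A B g}
    {f : XE A B g} (hz : dVC hg hgeo hι z Q = n) (hf : Prj hg hgeo hι Q z f) : car f ≠ F := by
  intro hcf
  have h3 := On_tgt f
  rw [hcf] at h3
  have h4 := H.out h3
  have h5 := hf.2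
  omega

theorem fx (hFix : FixStmt A B g) (H : Ft hg hgeo hι F Q Q' r n x y h f1 f2 eM eP Wo Wm)
    {z : XV A B g} (hz : r • z = z) : On F z ∧ ∀ w, On F w → r • w = w := by
  obtain ⟨k1, k2⟩ := hFix F r H.r1 H.rF
  by_cases hr : Rot r
  · exact ⟨(k1 hr z).1 hz, fun w hw => (k1 hr w).2 hw⟩
  · exact absurd hz (k2 hr z)

/-- `r` does not fix letters of shortest paths -/
theorem nofix (hFix : FixStmt A B g) (H : Ft hg hgeo hι F Q Q' r n x y h f1 f2 eM eP Wo Wm)
    {z : XV A B g} {f : XE A B g} (hz : dVC hg hgeo hι z Q = n) (hf : Prj hg hgeo hι Q z f)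
    (h1 : actE r f = f) : False := by
  have h2 : r • xsrc (xinv f) = xsrc (xinv f) := by rw [← xsrc_act, ← xinv_act, h1]
  have h3 := H.out (H.fx hFix h2).1
  have h4 := hf.2
  omega

/-- the case `r x = y` -/
theorem case1 (hA : ∀ x ∈ A, ∀ y ∈ A, x * y = y * x) (hPr : PrjStmt hg hgeo hι)
    (H : Ft hg hgeo hι F Q Q' r n x y h f1 f2 eM eP Wo Wm) (hy : r • x = y) :
    (8 ≤ Wo.length + Wm.length) ∨ (7 ≤ Wo.length + Wm.length ∧ actE r⁻¹ eP ≠ eM ∧
      Prj hg hgeo hι Q' x (actE r⁻¹ eP) ∧ Prj hg hgeo hι Q y (actE r eM)) := by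
  have hp1 : Prj hg hgeo hι Q' x (actE r⁻¹ eP) := by
    have := prj_act r⁻¹ H.pP
    rwa [← hy, inv_smul_smul, ← H.rQ, inv_smul_smul] at this
  have hp2 : Prj hg hgeo hι Q y (actE r eM) := by
    have := prj_act r H.pM
    rwa [hy, H.rQ] at this
  -- the walk `r⁻¹ Wm`
  obtain ⟨lm, hlm⟩ := H.wm
  obtain ⟨lo, hlo⟩ := H.wo
  set V := Wm.map (actE r⁻¹) with hV
  have hVc : V.IsChain (XX hg hgeo hι).Cor := by
    rw [hV, List.isChain_map]
    exact H.chm.imp (fun a b hab => cor_act _ hab)
  have hVl : V.length = Wm.length := by rw [hV, List.length_map]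
  have hVh : V.head? = some (actE r⁻¹ (xinv h)) := by rw [hV, hlm]; rfl
  have hVe : V.getLast? = some (actE r⁻¹ eP) := by rw [hV, List.getLast?_map, H.hm]; rfl
  have hcar : ∀ e : XE A B g, car e = F ↔ car (actE r⁻¹ e) = F := by
    intro e
    rw [car_act, inv_smul_eq_iff, H.rF]
  have hkn : kndE h = kinv (kndE (actE r⁻¹ (xinv h))) := by
    rw [kndE_act, kndE_xinv]
    generalize kndE h = κ
    cases κ <;> rfl
  have hH : (kndE (actE r⁻¹ (xinv h))).isH = true :=
    isH_pl H.plF ((hcar _).1 (by rw [car_inv]; exact H.ch))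
  have hne : actE r⁻¹ (xinv h) ≠ h := by
    intro h3
    rw [h3] at hkn
    revert hkn
    generalize kndE h = κ
    cases κ <;> decide
  have key : ∀ v : List (XE A B g), Wk (XX hg hgeo hι) v (actE r⁻¹ (xinv h)) h →
      TFst v → TLst v → 7 ≤ v.length := by
    intro v h1 h2 h3
    exact (tw_ G A B g hg hgeo hι hA v _ _ h1 h2 h3 hH
      (by rw [(hcar _).1 (by rw [car_inv]; exact H.ch), H.ch]) hne).2 (Or.inl hkn)
  have hf2 : car (actE r⁻¹ (xinv f2)) ≠ car (actE r⁻¹ (xinv h)) := by
    rw [(hcar _).1 (show car (xinv h) = F by rw [car_inv]; exact H.ch)]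
    intro h3
    exact H.c2 (by rw [← car_inv]; exact (hcar _).2 h3)
  have hf1 : car f1 ≠ car h := by rw [H.ch]; exact H.c1
  by_cases hee : actE r⁻¹ eP = eM
  · left
    obtain ⟨w, hw⟩ : ∃ w, Wo = eM :: w := by
      have := H.ho
      rcases hWo : Wo with _ | ⟨a, w⟩
      · rw [hWo] at this; simp at this
      · rw [hWo] at this
        exact ⟨w, by rw [← Option.some.inj this]⟩
    have hwl : 2 ≤ w.length := by
      have := H.lo
      rw [hw] at this; simpa using this
    have hwk := key (V ++ w) ⟨by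
        rw [List.isChain_append]
        refine ⟨hVc, ?_, ?_⟩
        · have := H.cho
          rw [hw] at this
          exact this.tail
        · intro a ha b hb
          rw [hVe, hee] at ha
          have := H.cho
          rw [hw, List.isChain_cons] at this
          rw [← Option.some.inj ha]
          exact this.1 b hb, by
        rw [List.head?_append, hVh]; rfl, by
        rw [List.getLast?_append]
        have h3 : Wo.getLast? = some h := by rw [hlo]; simp
        have h4 : w.getLast? = some h := by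
          rw [hw, List.getLast?_cons] at h3
          rcases hwl' : w.getLast? with _ | c
          · rw [List.getLast?_eq_none_iff] at hwl'
            rw [hwl'] at hwl; simp at hwl
          · rw [hwl'] at h3
            simpa using h3
        rw [h4]; rfl⟩
      ⟨actE r⁻¹ (xinv h), actE r⁻¹ (xinv f2), lm.map (actE r⁻¹) ++ w, by rw [hV, hlm]; rfl, hf2⟩
      (by
        -- `w` ends with `[f1, h]`
        obtain ⟨l', hl'⟩ : ∃ l', w = l' ++ [f1, h] := by
          rcases lo with _ | ⟨a, lo⟩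
          · exfalso
            have := H.lo
            rw [hlo] at this; simp at this
          · rw [hlo] at hw
            exact ⟨lo, (List.cons.inj hw).2.symm⟩
        exact ⟨V ++ l', f1, h, by rw [hl', List.append_assoc], hf1⟩)
    rw [List.length_append, hVl] at hwk
    rw [hw, List.length_cons]
    omega
  · right
    refine ⟨?_, hee, hp1, hp2⟩
    have hcor : (XX hg hgeo hι).Cor (actE r⁻¹ eP) eM := by
      rcases hPr Q' x _ _ H.plQ' hp1 H.pM with h3 | h3
      · exact absurd h3 hee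
      · exact h3
    have hwk := key (V ++ Wo) ⟨by
        rw [List.isChain_append]
        refine ⟨hVc, H.cho, ?_⟩
        intro a ha b hb
        rw [hVe] at ha
        rw [H.ho] at hb
        rw [← Option.some.inj ha, ← Option.some.inj hb]
        exact hcor, by
        rw [List.head?_append, hVh]; rfl, by
        rw [List.getLast?_append, hlo]; simp⟩
      ⟨actE r⁻¹ (xinv h), actE r⁻¹ (xinv f2), lm.map (actE r⁻¹) ++ Wo, by rw [hV, hlm]; rfl, hf2⟩
      ⟨V ++ lo, f1, h, by rw [hlo, List.append_assoc], hf1⟩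
    rw [List.length_append, hVl] at hwk
    omega

/-- the case `r x = x` -/
theorem case2a (hA : ∀ x ∈ A, ∀ y ∈ A, x * y = y * x) (hFix : FixStmt A B g)
    (hAd : AdjStmt (A := A) (B := B) (g := g)) (hPr : PrjStmt hg hgeo hι)
    (hEd : EdgeStmt hg hgeo hι)
    (H : Ft hg hgeo hι F Q Q' r n x y h f1 f2 eM eP Wo Wm) (hx : r • x = x)
    (hl : Wm.length = 3) : 5 ≤ Wo.length := by
  have hsys := hsysX (hg := hg) (hgeo := hgeo) (hι := hι) hA
  have hinv : ∀ e : XE A B g, (XX hg hgeo hι).inv e = xinv e := fun _ => rfl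
  have hry : r • y = y := (H.fx hFix hx).2 y H.oy
  have dxQ : dVC hg hgeo hι x Q = n := by rw [← hx, H.smQ, H.dx]
  obtain ⟨g1, g2, hT, hp1, hp2⟩ := hEd Q h H.plQ (by rw [H.sx, H.sy, dxQ, H.dy])
    (by rw [H.sx, dxQ]; exact H.n1)
  rw [H.sx] at hp1
  rw [H.sy] at hp2
  have hrh : actE r h = h := hAd.1 _ _ (by rw [xsrc_act, H.sx, hx])
    (by rw [xinv_act, xsrc_act, H.sy, hry])
  have hrh' : actE r⁻¹ h = h := by
    have := congrArg (actE r⁻¹) hrh
    rw [act_back] at this
    exact this.symm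
  have hc1 : (XX hg hgeo hι).Cor h g1 := ⟨_, hT⟩
  have hc0 : (XX hg hgeo hι).Cor h (actE r⁻¹ g1) := by
    have := cor_act r⁻¹ hc1
    rwa [hrh'] at this
  have hp0 : Prj hg hgeo hι Q' x (actE r⁻¹ g1) := by
    have := prj_act r⁻¹ hp1
    rwa [← H.rQ, inv_smul_smul, show r⁻¹ • x = x by rw [inv_smul_eq_iff, hx]] at this
  -- the walk at `y`
  obtain ⟨l, hlm⟩ := H.wm
  have hl1 : l.length = 1 := by rw [hlm] at hl; simpa using hl
  obtain ⟨a, rfl⟩ := List.length_eq_one_iff.1 hl1
  have ha : a = eP := by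
    have := H.hm
    rw [hlm] at this
    simpa using this
  subst ha
  have hch := H.chm
  rw [hlm] at hch
  simp only [List.isChain_cons_cons, List.isChain_singleton, and_true] at hch
  have hc2 : (XX hg hgeo hι).Cor (xinv h) (xinv g2) := ⟨_, tri_rev hT⟩
  have hg2 : f2 = g2 := by
    rcases hPr Q y _ _ H.plQ H.pP hp2 with h3 | h3
    · rw [← h3] at hc2
      exact (no3 hsys hch.1 hch.2 (cor_sym hc2)).elim
    · rcases four hsys hch.1 hch.2 h3 (cor_sym hc2) with h4 | h4
      · exfalso
        apply H.carP H.dy H.pP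
        rw [← h4, car_inv]; exact H.ch
      · have := congrArg xinv h4
        rwa [xii, xii] at this
  have hg1 : f1 = g1 := by
    subst hg2
    exact tri_uniq' (S := XX hg hgeo hι) (e := h) (e' := f2) H.T hT
  subst hg1
  obtain ⟨lo, hlo⟩ := H.wo
  have hcho := H.cho
  have hro := H.ro
  have hho := H.ho
  have hlo3 := H.lo
  rw [hlo] at hcho hro hho hlo3
  by_contra hcon
  have heh : eM ≠ h := by
    have h6 := H.mir.carP (z := x) H.dx H.pM
    intro h7
    apply h6
    rw [h7]; exact H.ch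
  have hee : actE r⁻¹ f1 = eM ∨ (XX hg hgeo hι).Cor (actE r⁻¹ f1) eM :=
    hPr Q' x _ _ H.plQ' hp0 H.pM
  have hcase : lo.length = 1 ∨ lo.length = 2 := by
    rw [hlo, List.length_append] at hcon
    rw [List.length_append] at hlo3
    simp at hcon hlo3
    omega
  rcases hcase with hl1 | hl1
  · obtain ⟨a, rfl⟩ := List.length_eq_one_iff.1 hl1
    have ha : a = eM := by simpa using hho
    subst ha
    simp only [List.cons_append, List.nil_append, List.isChain_cons_cons, List.isChain_singleton,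
      and_true] at hcho
    rcases hee with h3 | h3
    · rw [h3] at hc0
      exact no3 hsys hcho.1 hcho.2 hc0
    · rcases four hsys hcho.1 hcho.2 hc0 h3 with h4 | h4
      · exact heh h4
      · apply H.nofix hFix dxQ hp1
        have := congrArg (actE r) h4
        rwa [act_back'] at this
  · obtain ⟨a, b, rfl⟩ := List.length_eq_two.1 hl1
    have ha : a = eM := by simpa using hho
    subst ha
    simp only [List.cons_append, List.nil_append, List.isChain_cons_cons, List.isChain_singleton,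
      and_true] at hcho
    have r0 := (red_iff _).1 hro 0 (by simp)
    have r1 := (red_iff _).1 hro 1 (by simp)
    simp at r0 r1
    rcases hee with h3 | h3
    · rw [h3] at hc0
      rcases four hsys hcho.1 hcho.2.1 hcho.2.2 hc0 with h4 | h4
      · exact r0 h4
      · exact r1 h4
    · exact no5 hsys hcho.1 hcho.2.1 hcho.2.2 hc0 h3

/-- the case `r x ≠ x, y` -/
theorem case2b (hA : ∀ x ∈ A, ∀ y ∈ A, x * y = y * x) (hPr : PrjStmt hg hgeo hι)
    (hEd : EdgeStmt hg hgeo hι) (hNs : NsegStmt hg hgeo hι)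
    (H : Ft hg hgeo hι F Q Q' r n x y h f1 f2 eM eP Wo Wm) (hx : r • x ≠ x) (hy : r • x ≠ y) :
    4 ≤ Wm.length := by
  have hrx : On F (r • x) := by
    have := On.smul H.ox r
    rwa [H.rF] at this
  have hdr : dVC hg hgeo hι (r • x) Q = n := by rw [H.smQ, H.dx]
  obtain ⟨k, hck, hk1, hk2⟩ := hNs F Q y (r • x) n H.plF H.plQ H.n1 H.ds H.oy hrx H.dy hdr hy.symm
  obtain ⟨g1, g2, hT, hp1, hp2⟩ := hEd Q k H.plQ (by rw [hk1, hk2, H.dy, hdr])
    (by rw [hk1, H.dy]; exact H.n1)
  rw [hk1] at hp1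
  have hcg : car g1 ≠ F := H.carP H.dy hp1
  have hne : xinv h ≠ k := by
    intro h3
    apply hx
    rw [← hk2, ← h3, xii, H.sx]
  have hch : car (xinv h) = F := by rw [car_inv]; exact H.ch
  have hH : (kndE (xinv h)).isH = true := isH_pl H.plF hch
  have hc1 : (XX hg hgeo hι).Cor g1 k := cor_sym ⟨_, hT⟩
  obtain ⟨l, hlm⟩ := H.wm
  have key : ∀ v : List (XE A B g), Wk (XX hg hgeo hι) v (xinv h) k →
      TFst v → TLst v → 6 ≤ v.length := by
    intro v h1 h2 h3
    exact (tw_ G A B g hg hgeo hι hA v _ _ h1 h2 h3 hH (by rw [hch, hck]) hne).1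
  have hf2 : car (xinv f2) ≠ car (xinv h) := by
    rw [hch, car_inv]; exact H.c2
  have hhd : Wm.head? = some (xinv h) := by rw [hlm]; rfl
  rcases hPr Q y _ _ H.plQ H.pP hp1 with h3 | h3
  · obtain ⟨l', hl'⟩ := List.getLast?_eq_some_iff.1 H.hm
    have := key (Wm ++ [k]) ⟨by
        rw [List.isChain_append]
        refine ⟨H.chm, by simp, ?_⟩
        intro a ha b hb
        rw [H.hm] at ha
        simp at hb
        rw [← Option.some.inj ha, ← hb, h3]
        exact hc1, by rw [List.head?_append, hhd]; rfl, by simp⟩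
      ⟨xinv h, xinv f2, l ++ [k], by rw [hlm]; rfl, hf2⟩
      ⟨l', eP, k, by rw [hl']; simp, by rw [h3, hck]; exact hcg⟩
    rw [List.length_append] at this
    simp at this
    omega
  · have := key (Wm ++ [g1, k]) ⟨by
        rw [List.isChain_append]
        refine ⟨H.chm, by simp [hc1], ?_⟩
        intro a ha b hb
        rw [H.hm] at ha
        simp at hb
        rw [← Option.some.inj ha, ← hb]
        exact h3, by rw [List.head?_append, hhd]; rfl, by simp⟩
      ⟨xinv h, xinv f2, l ++ [g1, k], by rw [hlm]; rfl, hf2⟩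
      ⟨Wm, g1, k, rfl, by rw [hck]; exact hcg⟩
    rw [List.length_append] at this
    simp at this
    omega

/-- one letter -/
theorem main (hA : ∀ x ∈ A, ∀ y ∈ A, x * y = y * x) (hFix : FixStmt A B g)
    (hAd : AdjStmt (A := A) (B := B) (g := g)) (hPr : PrjStmt hg hgeo hι)
    (hEd : EdgeStmt hg hgeo hι) (hNs : NsegStmt hg hgeo hι)
    (H : Ft hg hgeo hι F Q Q' r n x y h f1 f2 eM eP Wo Wm) :
    7 ≤ Wo.length + Wm.length ∧ (Wo.length + Wm.length = 7 →
      (∃ e₂, e₂ ≠ eM ∧ Prj hg hgeo hι Q' x e₂) ∧ ∃ e₂, e₂ ≠ eP ∧ Prj hg hgeo hι Q y e₂) := by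
  by_cases hy : r • x = y
  · rcases H.case1 hA hPr hy with h1 | ⟨h1, h2, h3, h4⟩
    · exact ⟨by omega, fun h => by omega⟩
    · refine ⟨h1, fun _ => ⟨⟨_, h2, h3⟩, ⟨_, ?_, h4⟩⟩⟩
      intro h5
      apply h2
      rw [← h5, act_back]
  · have hm := H.mir
    have h8 : 8 ≤ Wo.length + Wm.length := by
      by_cases hx : r • x = x
      · have h1 := H.case2a hA hFix hAd hPr hEd hx
        have hry : r⁻¹ • y = y := by
          rw [inv_smul_eq_iff]
          exact ((H.fx hFix hx).2 y H.oy).symm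
        have h2 := hm.case2a hA hFix hAd hPr hEd hry
        rw [List.length_reverse, List.length_reverse] at h2
        have h3 := H.lo
        have h4 := H.lm
        omega
      · have h1 := H.case2b hA hPr hEd hNs hx hy
        have h2 := hm.case2b hA hPr hEd hNs (by
          intro h3
          apply hx
          rw [inv_smul_eq_iff] at h3
          exact (H.fx hFix h3.symm).2 x H.ox) (by
          intro h3
          apply hy
          rw [inv_smul_eq_iff] at h3
          exact h3.symm)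
        rw [List.length_reverse] at h2
        omega
    exact ⟨by omega, fun h => by omega⟩

end Ft

variable {c : ℕ → Car A B g} {ρ : ℕ → PP A B g} {C : Cfg (XV A B g) (XE A B g)}
variable {b e : ℕ} {W : ℕ → List (XE A B g)}

theorem sum_Icc_ends (f : ℕ → ℤ) {a b : ℕ} (h : a < b) :
    ∑ j ∈ Finset.Icc a b, f j = f a + ∑ j ∈ Finset.Ioo a b, f j + f b := by
  rw [← Finset.Ioc_insert_left h.le, Finset.sum_insert (by simp),
    ← Finset.Ioo_insert_right h, Finset.sum_insert (by simp)]
  ring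

/-- TIP1 -/
theorem tip1_stmt (hA : ∀ x ∈ A, ∀ y ∈ A, x * y = y * x) (hFix : FixStmt A B g)
    (hAd : AdjStmt (A := A) (B := B) (g := g)) (hPr : PrjStmt hg hgeo hι)
    (hEd : EdgeStmt hg hgeo hι) (hNs : NsegStmt hg hgeo hι) (hFl : FlatStmt hg hgeo hι) :
    Tip1Stmt hg hgeo hι := by
  intro c ρ n C b e W hCh hOk hNb hP t hb he hs
  have hn := hCh.ps
  have hlt : C.o (t + 1) < C.m (t + 1) := by
    rcases (C.o_le_m (t + 1)).lt_or_eq with h | h
    · exact h
    · exact absurd (C.m_eq_o.1 h.symm) hs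
  obtain ⟨F1, F2, F3⟩ := hFl c ρ n C b e W hCh hOk hNb hP
  obtain ⟨v1, v2⟩ := F2 (t + 1) hlt (by omega) he
  obtain ⟨u1, u2⟩ := F3 t hlt hb (by omega)
  have hTp : Tp C W (t + 1) = val (W (C.o (t + 1))) +
      ∑ j ∈ Finset.Ioo (C.o (t + 1)) (C.m (t + 1)), val (W j) + val (W (C.m (t + 1))) :=
    sum_Icc_ends _ hlt
  have hin : ∑ j ∈ Finset.Ioo (C.o (t + 1)) (C.m (t + 1)), val (W j) ≤
      -2 * ((C.m (t + 1) : ℤ) - C.o (t + 1) - 1) := by
    have h1 := Finset.sum_le_card_nsmul (Finset.Ioo (C.o (t + 1)) (C.m (t + 1)))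
      (fun j => val (W j)) (-2) (by
        intro j hj
        rw [Finset.mem_Ioo] at hj
        exact F1 (t + 1) j hj.1 hj.2 (by omega) (by omega))
    rw [Nat.card_Ioo, nsmul_eq_mul] at h1
    have h2 : ((C.m (t + 1) - C.o (t + 1) - 1 : ℕ) : ℤ) = (C.m (t + 1) : ℤ) - C.o (t + 1) - 1 := by
      omega
    rw [h2] at h1
    linarith
  have hmain : Tp C W (t + 1) ≤ 0 ∨ (Tp C W (t + 1) = 1 ∧
      secm hg hgeo hι c C (t + 1) ∧ secp hg hgeo hι c C (t + 1)) := by
    by_cases h2 : C.o (t + 1) + 2 ≤ C.m (t + 1)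
    · left
      have : (C.o (t + 1) : ℤ) + 2 ≤ C.m (t + 1) := by exact_mod_cast h2
      linarith
    · have hm1 : C.m (t + 1) = C.o (t + 1) + 1 := by omega
      obtain ⟨p, hp⟩ : ∃ p, C.o (t + 1) = p + 1 := ⟨C.o (t + 1) - 1, by omega⟩
      have hm2 : C.m (t + 1) = p + 2 := by omega
      have hz : ∑ j ∈ Finset.Ioo (C.o (t + 1)) (C.m (t + 1)), val (W j) = 0 := by
        rw [hm1]
        have : Finset.Ioo (C.o (t + 1)) (C.o (t + 1) + 1) = ∅ := by
          ext j; simp
        rw [this]; simp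
      rw [hz, add_zero] at hTp
      obtain ⟨f1, f2, l, l', hT, hw1, hw2, hc, -, -⟩ := hP.edg (p + 1) (by omega) (by omega)
      obtain ⟨_, k2, _, l2, _, _, hw0, _⟩ := hP.edg p (by omega) (by omega)
      obtain ⟨k3, _, l3, _, _, hw3, _⟩ := hP.edg (p + 2) (by omega) (by omega)
      have hc' := hc (t + 1) (by omega) (by omega)
      have hdo := leg_dist hCh hOk (i := t) (t := C.o (t + 1)) (by
        have := hOk.o_succ t
        omega) le_rfl
      have hdm := leg_dist hCh hOk (i := t + 1) (t := C.m (t + 1)) le_rfl (by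
        have := hOk.o_succ (t + 1)
        omega)
      have ho1 := hOk.o_succ t
      have ho2 := hOk.o_succ (t + 1)
      rw [hOk.src_o hn] at hdo
      rw [hOk.src_m hn] at hdm
      have hsx : xsrc (C.lt (p + 1)) = C.xm (t + 1) := by rw [← hp]; exact hOk.src_o hn _
      have hsy : xsrc (C.lt (p + 2)) = C.xp (t + 1) := by rw [← hm2]; exact hOk.src_m hn _
      have hFt : Ft hg hgeo hι (c (t + 1)) (c (t + 2)) (c t) (ρ (t + 1)) n (C.xm (t + 1))
          (C.xp (t + 1)) (C.lt (p + 1)) f1 f2 (eM C (t + 1)) (eP C (t + 1)) (W (p + 1))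
          (W (p + 2)) :=
        { plF := hCh.pl _
          plQ := hCh.pl _
          plQ' := hCh.pl _
          n1 := hn
          r1 := hCh.n1 _
          rF := hCh.st _
          rQ := hCh.nx t
          ds := hCh.ds (t + 1)
          ds' := by rw [dCC_comm]; exact hCh.ds t
          ch := hOk.car_side hn (by omega) (by omega)
          sx := hsx
          sy := by rw [← hOk.path hn, ← hsy]
          dx := by rw [hdo.2]; omega
          dy := by
            have h3 := hdm.1
            rw [show t + 1 + 1 = t + 2 by omega] at h3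
            have h4 : C.o (t + 2) = C.m (t + 1) + n := ho2
            rw [h3]; omega
          pM := eM_prj hCh hOk t
          pP := eP_prj hCh hOk (t + 1)
          T := hT
          c1 := hc'.1
          c2 := hc'.2
          cho := hP.chain _ (by omega) (by omega)
          chm := hP.chain _ (by omega) (by omega)
          ro := hP.red _ (by omega) (by omega)
          rm := hP.red _ (by omega) (by omega)
          wo := ⟨l, hw1⟩
          wm := ⟨l', hw2⟩
          ho := by rw [hw0, eM, hp]; rfl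
          hm := by rw [hw3, eP, hm2]; simp
          lo := by
            rw [hp, val] at u1
            omega
          lm := by
            rw [hm2, val] at v1
            omega }
      obtain ⟨h7, h8⟩ := hFt.main hA hFix hAd hPr hEd hNs
      rw [hp, hm2, val, val] at hTp
      by_cases h9 : (W (p + 1)).length + (W (p + 2)).length = 7
      · right
        refine ⟨by omega, ?_, ?_⟩
        · obtain ⟨e₂, k1, k2⟩ := (h8 h9).1
          refine ⟨e₂, k1, ?_⟩
          rw [show t + 1 + 5 = t + 6 by omega, hCh.pc]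
          exact k2
        · obtain ⟨e₂, k1, k2⟩ := (h8 h9).2
          exact ⟨e₂, k1, k2⟩
      · left
        omega
  refine ⟨?_, ?_, ?_, ?_, ?_⟩
  · intro h1 h2
    have h3 := u2 h1
    have h4 := v2 h2
    have h5 : (C.o (t + 1) : ℤ) + 1 ≤ C.m (t + 1) := by exact_mod_cast hlt
    linarith
  · intro h1
    have h5 : (C.o (t + 1) : ℤ) + 1 ≤ C.m (t + 1) := by exact_mod_cast hlt
    rcases h1 with h1 | h1
    · have h3 := u2 h1
      linarith
    · have h4 := v2 h1
      linarith
  · rcases hmain with h1 | h1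
    · omega
    · omega
  · intro h1
    rcases hmain with h2 | h2
    · omega
    · omega
  · intro h1
    rcases hmain with h2 | h2
    · omega
    · exact Or.inr h2.2

end Pool.Agent.ABA.B.H24
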